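import Pool.Graph.R_seed8.TH207.Bd3

/-! Arithmetic of a terminal direction: the denominator divides one of the two degrees. -/

set_option autoImplicit false
set_option linter.unusedSectionVars false
set_option linter.unusedSimpArgs false

namespace Pool.Agent.Helper1.TZ

open MvPolynomial Pool.Agent.TH207.Ser

/-- The arithmetic data of a terminal direction: a number `j`, at most `n`, and a common divisor
`ρ` of one of the numbers `a`, `b` and of `(a + b) j - 1`, with a quotient at most `u`. -/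
def Crit (a b n u : ℕ) : Prop :=
  ∃ j ρ w : ℕ, 1 ≤ j ∧ j ≤ n ∧ 1 ≤ w ∧ w ≤ u ∧ (a + b) * j = ρ * w + 1 ∧ (ρ ∣ a ∨ ρ ∣ b)

theorem Crit.mono {a b n n' u u' : ℕ} (hn : n ≤ n') (hu : u ≤ u') (h : Crit a b n u) :
    Crit a b n' u' := by
  obtain ⟨j, ρ, w, h1, h2, h3, h4, h5, h6⟩ := h
  exact ⟨j, ρ, w, h1, h2.trans hn, h3, h4.trans hu, h5, h6⟩

variable {k : Type*} [Field k] [CharZero k]

section term

variable {a b : ℕ} {D d : ℤ} {e : ℕ} {c : k}
    {F G : MvPolynomial (Fin 2) k} {A : ℤ} {n iF iG : ℕ} {ρ σ K H : ℕ}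

theorem term_crit (ha : 2 ≤ a) (hn : 1 ≤ n) (hc : c ≠ 0)
    (hB : Bk D d F G = C c * X 0 ^ e) (X1 : Nx a b D d e F G A n iF iG ρ σ K H)
    (hT : (a + b) * H = K) {u : ℕ} (hu : (u : ℤ) = (D + d - e) * n - A) :
    Crit a b n u := by
  obtain ⟨m, m', h1, h2, h3, h4⟩ := Pool.Agent.TH207.Ser.mono hc hB
  have h5 := X1.hF.le m h1
  have h6 := X1.hG.le m' h2
  have hd := X1.hdiff
  have hT' : ((a : ℤ) + b) * H = K := by exact_mod_cast hT
  rw [hT', sub_self] at hd
  have h7 : ρ * iF + σ * (a * n) + (ρ * iG + σ * (b * n)) = σ + ρ * e := by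
    zify; linarith
  have h8 : (ρ * m 0 + σ * m 1) + (ρ * m' 0 + σ * m' 1) = σ + ρ * e := by
    rw [← h3]
    calc (ρ * m 0 + σ * m 1) + (ρ * m' 0 + σ * m' 1) =
        ρ * (m 0 + m' 0) + σ * (m 1 + m' 1) := by ring
      _ = σ + ρ * (m 0 + m' 0) := by rw [h4]; ring
  have h9 : ρ * iF + σ * (a * n) = ρ * m 0 + σ * m 1 := by omega
  have h10 : ρ * iG + σ * (b * n) = ρ * m' 0 + σ * m' 1 := by omega
  have hco : IsCoprime (ρ : ℤ) (σ : ℤ) := Nat.isCoprime_iff_coprime.2 X1.hcop
  have h9z : (ρ : ℤ) * iF + σ * (a * n) = ρ * m 0 + σ * m 1 := by exact_mod_cast h9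
  have h10z : (ρ : ℤ) * iG + σ * (b * n) = ρ * m' 0 + σ * m' 1 := by exact_mod_cast h10
  have h11 : (ρ : ℤ) ∣ (a * n : ℤ) - m 1 := by
    apply hco.dvd_of_dvd_mul_left
    refine ⟨(m 0 : ℤ) - iF, ?_⟩
    linear_combination h9z
  have h12 : (ρ : ℤ) ∣ (b * n : ℤ) - m' 1 := by
    apply hco.dvd_of_dvd_mul_left
    refine ⟨(m' 0 : ℤ) - iG, ?_⟩
    linear_combination h10z
  -- the quotient
  have h13 : (ρ : ℤ) ∣ ((a : ℤ) + b) * n - 1 := by
    apply hco.dvd_of_dvd_mul_left
    refine ⟨((a : ℤ) + b) * A - (D + d - e), ?_⟩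
    have e1 := X1.hK
    have e2 := X1.hH
    rw [← hT', e2] at e1
    linear_combination -e1
  obtain ⟨w, hw⟩ := h13
  have hρz : (0 : ℤ) < ρ := by exact_mod_cast X1.hρ
  have hHz : (1 : ℤ) ≤ H := by exact_mod_cast X1.hH0
  have hnz : (1 : ℤ) ≤ n := by exact_mod_cast hn
  have haz : (2 : ℤ) ≤ a := by exact_mod_cast ha
  have hbz : (0 : ℤ) ≤ b := by positivity
  have hpos : (0 : ℤ) < ((a : ℤ) + b) * n - 1 := by nlinarith
  have hw0 : 0 < w := by
    rw [hw] at hpos
    exact pos_of_mul_pos_right hpos hρz.le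
  obtain ⟨w', hw'⟩ := Int.eq_ofNat_of_zero_le hw0.le
  subst hw'
  have h14 : (u : ℤ) = H * w' := by
    apply mul_left_cancel₀ hρz.ne'
    have e1 := X1.hu
    rw [← hu, ← hT'] at e1
    linear_combination e1 + (H : ℤ) * hw
  have hw1 : 1 ≤ w' := by exact_mod_cast hw0
  refine ⟨n, ρ, w', hn, le_rfl, hw1, ?_, ?_, ?_⟩
  · have h15 : (w' : ℤ) ≤ u := by
      rw [h14]
      nlinarith
    exact_mod_cast h15
  · have h15 : ((a : ℤ) + b) * n = ρ * w' + 1 := by linarith
    exact_mod_cast h15
  · have key : ∀ x y : ℕ, (ρ : ℤ) ∣ (x * n : ℤ) → (ρ : ℤ) ∣ (y * n : ℤ) - 1 → ρ ∣ x := by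
      intro x y hx hy
      have h16 : IsCoprime (ρ : ℤ) (n : ℤ) := by
        obtain ⟨z, hz⟩ := hy
        exact ⟨-z, y, by linear_combination hz⟩
      have h17 := h16.dvd_of_dvd_mul_right hx
      exact_mod_cast h17
    rcases Nat.eq_zero_or_pos (m 1) with h16 | h16
    · have h17 : m' 1 = 1 := by omega
      rw [h16] at h11
      rw [h17] at h12
      left
      exact key a b (by simpa using h11) (by simpa using h12)
    · have h17 : m' 1 = 0 := by omega
      have h18 : m 1 = 1 := by omega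
      rw [h18] at h11
      rw [h17] at h12
      right
      exact key b a (by simpa using h12) (by simpa using h11)

end term

/-- The induction along the tree of vertices. -/
theorem crit_bound [IsAlgClosed k] {a b : ℕ} (ha : 2 ≤ a) (hcop : Nat.Coprime a b) :
    ∀ (u t : ℕ) {D d : ℤ} {e : ℕ} {c : k} {F G : MvPolynomial (Fin 2) k} {ρ0 σ0 : ℕ} {A : ℤ}
      {n iF iG : ℕ}, St a b D d e c F G ρ0 σ0 A n iF iG → (u : ℤ) = (D + d - e) * n - A → 0 < u →
      (D + d - e) * ρ0 - σ0 ≤ t * ρ0 → Crit a b n u := by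
  intro u
  induction u using Nat.strong_induction_on with
  | _ u ihu =>
  intro t
  induction t using Nat.strong_induction_on with
  | _ t iht =>
  intro D d e c F G ρ0 σ0 A n iF iG S hu hu0 ht
  have huz : (0 : ℤ) < (D + d - e) * n - A := by rw [← hu]; exact_mod_cast hu0
  obtain ⟨ρ, σ, K, H, hlt, X1⟩ := exists_nx ha S huz
  have hKz : (0 : ℤ) < K := by exact_mod_cast X1.hK0
  have hHz : (0 : ℤ) < H := by exact_mod_cast X1.hH0
  have hρz : (0 : ℤ) < ρ := by exact_mod_cast X1.hρ
  have hmain : (ρ : ℤ) * u = n * K - H := by rw [hu]; exact X1.hu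
  rcases Nat.lt_or_ge K ((a + b) * H) with hT | hT
  · -- a non-terminal direction
    obtain ⟨f, g, h, c', Y⟩ := X1.form ha hcop S hT
    have h0 : H < n * K := by
      have h1 : (0 : ℤ) < ρ * u := mul_pos hρz (by exact_mod_cast hu0)
      zify; linarith
    obtain ⟨r, μ, h1, h2, h3, hμ⟩ := Y.root ha S.hn X1.hK0 h0
    have h3z : (H : ℤ) < μ * K := by exact_mod_cast h3
    by_cases hr : r = 0
    · subst hr
      obtain ⟨A', iF', iG', e1, _, S'⟩ := Y.step0 hcop S X1 hμ h1 h2
      have hμn : μ < n := by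
        have := Y.hz
        rw [h1] at this
        exact Nat.lt_of_mul_lt_mul_left this
      have hμnz : (μ : ℤ) < n := by exact_mod_cast hμn
      obtain ⟨uz, huz'⟩ : ∃ uz : ℤ, uz = (D + d - e) * μ - A' := ⟨_, rfl⟩
      have e2 : (ρ : ℤ) * uz = μ * K - H := by
        rw [huz', X1.hK]
        linear_combination -e1
      have e3 : 0 < uz := by
        have : (0 : ℤ) < ρ * uz := by rw [e2]; linarith
        exact pos_of_mul_pos_right this hρz.le
      have e4 : uz < u := by
        have h5 : (ρ : ℤ) * uz < ρ * u := by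
          rw [e2, hmain]
          have := mul_lt_mul_of_pos_right hμnz hKz
          linarith
        exact lt_of_mul_lt_mul_left h5 hρz.le
      obtain ⟨u', hu'⟩ := Int.eq_ofNat_of_zero_le e3.le
      subst hu'
      have h6 := ihu u' (by exact_mod_cast e4) (D + d - e).toNat S' huz' (by exact_mod_cast e3) (by
        have h7 : D + d - e ≤ ((D + d - e).toNat : ℤ) := Int.self_le_toNat _
        have h8 := mul_le_mul_of_nonneg_right h7 hρz.le
        have h9 : (0 : ℤ) ≤ σ := by positivity
        linarith)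
      exact h6.mono hμn.le (by exact_mod_cast e4.le)
    · obtain ⟨iF', iG', _, S'⟩ := Y.step1 S X1 hμ h1 h2
      have horb := orbit X1.hρ Y.hf0 Y.hres hr
      rw [h1, Y.hfd] at horb
      have hρμ : ρ * μ ≤ n := by
        have h4 : a * (ρ * μ) ≤ a * n := by
          calc a * (ρ * μ) = ρ * (a * μ) := by ring
            _ ≤ a * n := by omega
        exact Nat.le_of_mul_le_mul_left h4 (by omega)
      have hμn : μ ≤ n := by
        have : 1 * μ ≤ ρ * μ := Nat.mul_le_mul_right _ X1.hρ
        omega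
      have hρμz : (ρ : ℤ) * μ ≤ n := by exact_mod_cast hρμ
      obtain ⟨uz, huz'⟩ : ∃ uz : ℤ, uz = μ * K - H := ⟨_, rfl⟩
      have e3 : 0 < uz := by rw [huz']; linarith
      have hid : (ρ : ℤ) * (u - uz) = K * (n - ρ * μ) + (ρ - 1) * H := by
        rw [mul_sub, hmain, huz']; ring
      have e5 : (0 : ℤ) ≤ K * (n - ρ * μ) := mul_nonneg hKz.le (by linarith)
      have e6 : (0 : ℤ) ≤ (ρ - 1) * H := mul_nonneg (by linarith) hHz.le
      have e4 : uz ≤ u := by
        have h5 : (0 : ℤ) ≤ ρ * (u - uz) := by rw [hid]; linarith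
        have := nonneg_of_mul_nonneg_right h5 hρz
        linarith
      have hl : (ρ * D + ρ * d - ((ρ * e : ℕ) : ℤ)) = ρ * (D + d - e) := by push_cast; ring
      have hS' : uz = (ρ * D + ρ * d - ((ρ * e : ℕ) : ℤ)) * μ - (H + σ * μ) := by
        rw [hl, huz', X1.hK]; ring
      obtain ⟨u', hu'⟩ := Int.eq_ofNat_of_zero_le e3.le
      subst hu'
      rcases lt_or_eq_of_le e4 with h5 | h5
      · have h6 := ihu u' (by exact_mod_cast h5)
          (ρ * D + ρ * d - ((ρ * e : ℕ) : ℤ)).toNat S' hS' (by exact_mod_cast e3) (by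
          have h7 := Int.self_le_toNat (ρ * D + ρ * d - ((ρ * e : ℕ) : ℤ))
          have h9 : (0 : ℤ) ≤ σ := by positivity
          push_cast at h7 ⊢
          linarith)
        exact h6.mono hμn (by exact_mod_cast e4)
      · -- the trivial change of coordinates
        have h6 : (K : ℤ) * (n - ρ * μ) + (ρ - 1) * H = 0 := by
          rw [← hid, h5]; ring
        have h7 : (K : ℤ) * (n - ρ * μ) = 0 := by linarith
        have h8 : ((ρ : ℤ) - 1) * H = 0 := by linarith
        have h9 : (ρ : ℤ) = 1 := by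
          rcases mul_eq_zero.1 h8 with h | h <;> linarith
        have h10 : (n : ℤ) = μ := by
          rcases mul_eq_zero.1 h7 with h | h
          · linarith
          · rw [h9] at h; linarith
        have hρ1 : ρ = 1 := by exact_mod_cast h9
        have hnμ : n = μ := by exact_mod_cast h10
        subst hρ1 hnμ
        have hu'u : u' = u := by exact_mod_cast h5
        subst hu'u
        have hlpos : (0 : ℤ) < D + d - e - σ := by
          have := X1.hK
          push_cast at this
          linarith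
        obtain ⟨t', ht'⟩ := Int.eq_ofNat_of_zero_le hlpos.le
        have hρ0 : (0 : ℤ) < ρ0 := by exact_mod_cast S.hρ
        have hlt' : (σ0 : ℤ) < σ * ρ0 := by
          have : σ0 * 1 < σ * ρ0 := hlt
          exact_mod_cast (by omega : σ0 < σ * ρ0)
        have ht't : t' < t := by
          have h11 : (t' : ℤ) * ρ0 < t * ρ0 := by
            have : (t' : ℤ) = D + d - e - σ := ht'.symm
            rw [this]
            linarith
          exact_mod_cast lt_of_mul_lt_mul_right h11 hρ0.le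
        exact iht t' ht't S' hS' hu0 (by
          push_cast
          have : (t' : ℤ) = D + d - e - σ := ht'.symm
          linarith)
  · -- a terminal direction
    have hT' : (a + b) * H = K := le_antisymm hT X1.hle
    exact term_crit ha S.hn S.hc S.hB X1 hT' hu

end Pool.Agent.Helper1.TZ
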