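import Mathlib
import Pool.Agent.Helper1.TZ.Term

/-! Counting the pairs which satisfy the divisibility criterion. -/

set_option autoImplicit false

namespace Pool.Agent.Helper1.TZ

open Finset

/-- solutions of a congruence up to `M` -/
theorem card_cong (M j α : ℕ) :
    ((range (M + 1)).filter (fun ρ => j ∣ ρ * α + 1)).card ≤ M / j + 1 := by
  rw [← card_range (M / j + 1)]
  apply card_le_card_of_injOn (fun x => x / j)
  · intro x hx
    rw [mem_coe, mem_filter, mem_range] at hx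
    rw [mem_coe, mem_range]
    exact Nat.lt_succ_of_le (Nat.div_le_div_right (by omega))
  · intro x hx y hy hxy
    rw [mem_coe, mem_filter] at hx hy
    have hco : Nat.Coprime j α := by
      obtain ⟨z, hz⟩ := hx.2
      rw [Nat.coprime_iff_gcd_eq_one]
      have h1 : Nat.gcd j α ∣ x * α + 1 := (Nat.gcd_dvd_left j α).trans hx.2
      have h2 : Nat.gcd j α ∣ x * α := (Nat.gcd_dvd_right j α).mul_left x
      exact Nat.dvd_one.1 ((Nat.dvd_add_right h2).1 h1)
    have h1 : x * α + 1 ≡ y * α + 1 [MOD j] :=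
      (Nat.modEq_zero_iff_dvd.2 hx.2).trans (Nat.modEq_zero_iff_dvd.2 hy.2).symm
    have h2 : x * α ≡ y * α [MOD j] := Nat.ModEq.add_right_cancel' 1 h1
    have h3 : x ≡ y [MOD j] := Nat.ModEq.cancel_right_of_coprime hco h2
    have h4 : x / j = y / j := hxy
    have h5 : x % j = y % j := h3
    rw [← Nat.div_add_mod x j, ← Nat.div_add_mod y j, h4, h5]

/-- the pairs from divisors of the first number -/
def S1 (X n U : ℕ) : Finset (ℕ × ℕ) :=
  (Icc 1 n).biUnion fun j => (Icc 1 U).biUnion fun α => (Icc 1 (α / j)).biUnion fun t =>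
    ((range (j * X / α + 1)).filter (fun ρ => j ∣ ρ * α + 1)).image
      fun ρ => (ρ * t, (ρ * α + 1) / j)

/-- the pairs from divisors of the second number -/
def S2 (X n U : ℕ) : Finset (ℕ × ℕ) :=
  (Icc 1 n).biUnion fun j => (Icc 1 (U / j)).biUnion fun t => (range (t * j)).biUnion fun α =>
    ((range (X / t + 1)).filter (fun ρ => j ∣ ρ * α + 1)).image
      fun ρ => ((ρ * α + 1) / j, ρ * t)

theorem mem_S {X n U a b : ℕ} (ha : 2 ≤ a) (hab : a < b) (hb : b ≤ X) (h : Crit a b n U) :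
    (a, b) ∈ S1 X n U ∪ S2 X n U := by
  obtain ⟨j, ρ, w, hj, hjn, hw, hwU, he, hd⟩ := h
  have hρ0 : 0 < ρ := by
    rcases Nat.eq_zero_or_pos ρ with h0 | h0
    · subst h0
      rcases hd with h | h
      · have := Nat.eq_zero_of_zero_dvd h; omega
      · have := Nat.eq_zero_of_zero_dvd h; omega
    · exact h0
  rw [mem_union]
  rcases hd with ⟨t, ht⟩ | ⟨t, ht⟩
  · left
    have ht0 : 0 < t := by
      rcases Nat.eq_zero_or_pos t with h0 | h0
      · subst h0; omega
      · exact h0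
    have hbj : 2 * 1 ≤ b * j := Nat.mul_le_mul (by omega) hj
    have e1 : ρ * (t * j) + b * j = ρ * w + 1 := by
      rw [← he, ht]; ring
    have h1 : t * j < w := by
      by_contra hcon
      push Not at hcon
      have : ρ * w ≤ ρ * (t * j) := Nat.mul_le_mul_left _ hcon
      omega
    obtain ⟨α, hα⟩ : ∃ α, w = t * j + α := ⟨w - t * j, by omega⟩
    have hα0 : 1 ≤ α := by omega
    have e2 : b * j = ρ * α + 1 := by
      rw [hα, mul_add] at e1
      omega
    have h2 : t * j ≤ α := by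
      by_contra hcon
      push Not at hcon
      have h3 : ρ * (α + 1) ≤ ρ * (t * j) := Nat.mul_le_mul_left _ hcon
      have h4 : a * j < b * j := Nat.mul_lt_mul_of_pos_right hab hj
      rw [ht] at h4
      have h5 : ρ * t * j = ρ * (t * j) := by ring
      rw [mul_add, mul_one] at h3
      omega
    rw [S1, mem_biUnion]
    refine ⟨j, mem_Icc.2 ⟨hj, hjn⟩, ?_⟩
    rw [mem_biUnion]
    refine ⟨α, mem_Icc.2 ⟨hα0, by omega⟩, ?_⟩
    rw [mem_biUnion]
    refine ⟨t, mem_Icc.2 ⟨ht0, (Nat.le_div_iff_mul_le hj).2 h2⟩, ?_⟩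
    rw [mem_image]
    refine ⟨ρ, ?_, ?_⟩
    · rw [mem_filter, mem_range]
      constructor
      · apply Nat.lt_succ_of_le
        rw [Nat.le_div_iff_mul_le hα0]
        have h3 : b * j ≤ X * j := Nat.mul_le_mul_right _ hb
        rw [mul_comm j X]
        omega
      · exact ⟨b, by rw [← e2]; ring⟩
    · rw [← e2, Nat.mul_div_cancel _ hj, ← ht]
  · right
    have ht0 : 0 < t := by
      rcases Nat.eq_zero_or_pos t with h0 | h0
      · subst h0; omega
      · exact h0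
    have haj : 2 * 1 ≤ a * j := Nat.mul_le_mul ha hj
    have e1 : ρ * (t * j) + a * j = ρ * w + 1 := by
      rw [← he, ht]; ring
    have h1 : t * j < w := by
      by_contra hcon
      push Not at hcon
      have : ρ * w ≤ ρ * (t * j) := Nat.mul_le_mul_left _ hcon
      omega
    obtain ⟨α, hα⟩ : ∃ α, w = t * j + α := ⟨w - t * j, by omega⟩
    have hα0 : 1 ≤ α := by omega
    have e2 : a * j = ρ * α + 1 := by
      rw [hα, mul_add] at e1
      omega
    have h2 : α < t * j := by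
      by_contra hcon
      push Not at hcon
      have h3 : ρ * (t * j) ≤ ρ * α := Nat.mul_le_mul_left _ hcon
      have h4 : a * j < b * j := Nat.mul_lt_mul_of_pos_right hab hj
      rw [ht] at h4
      have h5 : ρ * t * j = ρ * (t * j) := by ring
      omega
    rw [S2, mem_biUnion]
    refine ⟨j, mem_Icc.2 ⟨hj, hjn⟩, ?_⟩
    rw [mem_biUnion]
    refine ⟨t, mem_Icc.2 ⟨ht0, ?_⟩, ?_⟩
    · rw [Nat.le_div_iff_mul_le hj]; omega
    rw [mem_biUnion]
    refine ⟨α, mem_range.2 h2, ?_⟩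
    rw [mem_image]
    refine ⟨ρ, ?_, ?_⟩
    · rw [mem_filter, mem_range]
      constructor
      · apply Nat.lt_succ_of_le
        rw [Nat.le_div_iff_mul_le ht0, ← ht]
        exact hb
      · exact ⟨a, by rw [← e2]; ring⟩
    · rw [← e2, Nat.mul_div_cancel _ hj, ← ht]

theorem cast_div_le' (x y : ℕ) : ((x / y : ℕ) : ℝ) ≤ x / y := Nat.cast_div_le

theorem card_S1 (X n U : ℕ) :
    ((S1 X n U).card : ℝ) ≤ ∑ j ∈ Icc 1 n, (U : ℝ) * (X + U) / j := by
  have h1 : (S1 X n U).card ≤ ∑ j ∈ Icc 1 n, ∑ α ∈ Icc 1 U, ∑ t ∈ Icc 1 (α / j), (X / α + 1) := by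
    refine card_biUnion_le.trans (sum_le_sum fun j hj => ?_)
    have hj1 := (mem_Icc.1 hj).1
    refine card_biUnion_le.trans (sum_le_sum fun α hα => ?_)
    refine card_biUnion_le.trans (sum_le_sum fun t _ => ?_)
    refine card_image_le.trans ((card_cong _ _ _).trans ?_)
    rw [Nat.div_div_eq_div_mul, mul_comm α j, Nat.mul_div_mul_left _ _ hj1]
  have h2 : ((∑ j ∈ Icc 1 n, ∑ α ∈ Icc 1 U, ∑ t ∈ Icc 1 (α / j), (X / α + 1) : ℕ) : ℝ) ≤
      ∑ j ∈ Icc 1 n, (U : ℝ) * (X + U) / j := by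
    push_cast
    refine sum_le_sum fun j hj => ?_
    have hj1 : (1 : ℝ) ≤ j := by exact_mod_cast (mem_Icc.1 hj).1
    have h3 : ∀ α ∈ Icc 1 U, ∑ t ∈ Icc 1 (α / j), (((X / α : ℕ) : ℝ) + 1) ≤ ((X : ℝ) + U) / j := by
      intro α hα
      have hα1 : (1 : ℝ) ≤ α := by exact_mod_cast (mem_Icc.1 hα).1
      have hαU : (α : ℝ) ≤ U := by exact_mod_cast (mem_Icc.1 hα).2
      rw [sum_const, Nat.card_Icc, Nat.add_sub_cancel, nsmul_eq_mul]
      have h4 := cast_div_le' α j
      have h5 := cast_div_le' X α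
      have h6 : (0 : ℝ) ≤ (X / α : ℕ) := by positivity
      calc ((α / j : ℕ) : ℝ) * (((X / α : ℕ) : ℝ) + 1) ≤ (α / j : ℝ) * (X / α + 1) := by
            apply mul_le_mul h4 (by linarith) (by linarith) (by positivity)
        _ = ((X : ℝ) + α) / j := by field_simp
        _ ≤ ((X : ℝ) + U) / j := by gcongr
    calc ∑ α ∈ Icc 1 U, ∑ t ∈ Icc 1 (α / j), (((X / α : ℕ) : ℝ) + 1)
        ≤ ∑ α ∈ Icc 1 U, ((X : ℝ) + U) / j := sum_le_sum h3
      _ = (U : ℝ) * (X + U) / j := by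
          rw [sum_const, Nat.card_Icc, Nat.add_sub_cancel, nsmul_eq_mul]; ring
  exact (by exact_mod_cast h1 : ((S1 X n U).card : ℝ) ≤
    ((∑ j ∈ Icc 1 n, ∑ α ∈ Icc 1 U, ∑ t ∈ Icc 1 (α / j), (X / α + 1) : ℕ) : ℝ)).trans h2

theorem card_S2 (X n U : ℕ) :
    ((S2 X n U).card : ℝ) ≤ ∑ j ∈ Icc 1 n, (U : ℝ) * (X + U) / j := by
  have h1 : (S2 X n U).card ≤
      ∑ j ∈ Icc 1 n, ∑ t ∈ Icc 1 (U / j), ∑ α ∈ range (t * j), (X / (t * j) + 1) := by
    refine card_biUnion_le.trans (sum_le_sum fun j hj => ?_)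
    refine card_biUnion_le.trans (sum_le_sum fun t ht => ?_)
    refine card_biUnion_le.trans (sum_le_sum fun α _ => ?_)
    refine card_image_le.trans ((card_cong _ _ _).trans ?_)
    rw [Nat.div_div_eq_div_mul]
  have h2 : ((∑ j ∈ Icc 1 n, ∑ t ∈ Icc 1 (U / j), ∑ α ∈ range (t * j), (X / (t * j) + 1) : ℕ) : ℝ)
      ≤ ∑ j ∈ Icc 1 n, (U : ℝ) * (X + U) / j := by
    push_cast
    refine sum_le_sum fun j hj => ?_
    have hj1 : 1 ≤ j := (mem_Icc.1 hj).1
    have hj1' : (1 : ℝ) ≤ j := by exact_mod_cast hj1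
    have h3 : ∀ t ∈ Icc 1 (U / j), ∑ α ∈ range (t * j), (((X / (t * j) : ℕ) : ℝ) + 1) ≤
        ((X : ℝ) + U) := by
      intro t ht
      have ht1 : 1 ≤ t := (mem_Icc.1 ht).1
      have ht1' : (1 : ℝ) ≤ t := by exact_mod_cast ht1
      have htU : t * j ≤ U := (Nat.le_div_iff_mul_le hj1).1 (mem_Icc.1 ht).2
      have htU' : (t : ℝ) * j ≤ U := by exact_mod_cast htU
      rw [sum_const, card_range, nsmul_eq_mul]
      have h5 : ((X / (t * j) : ℕ) : ℝ) ≤ X / (t * j) := by
        have := cast_div_le' X (t * j)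
        push_cast at this
        exact this
      have hpos : (0 : ℝ) < t * j := by positivity
      calc ((t * j : ℕ) : ℝ) * (((X / (t * j) : ℕ) : ℝ) + 1) ≤ (t * j : ℝ) * (X / (t * j) + 1) := by
            push_cast
            apply mul_le_mul_of_nonneg_left (by linarith) hpos.le
        _ = (X : ℝ) + t * j := by field_simp
        _ ≤ (X : ℝ) + U := by linarith
    calc ∑ t ∈ Icc 1 (U / j), ∑ α ∈ range (t * j), (((X / (t * j) : ℕ) : ℝ) + 1)
        ≤ ∑ t ∈ Icc 1 (U / j), ((X : ℝ) + U) := sum_le_sum h3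
      _ = ((U / j : ℕ) : ℝ) * (X + U) := by
          rw [sum_const, Nat.card_Icc, Nat.add_sub_cancel, nsmul_eq_mul]
      _ ≤ (U / j : ℝ) * (X + U) := by
          apply mul_le_mul_of_nonneg_right (cast_div_le' U j) (by positivity)
      _ = (U : ℝ) * (X + U) / j := by ring
  exact (by exact_mod_cast h1 : ((S2 X n U).card : ℝ) ≤
    ((∑ j ∈ Icc 1 n, ∑ t ∈ Icc 1 (U / j), ∑ α ∈ range (t * j), (X / (t * j) + 1) : ℕ) : ℝ)).trans h2

theorem sum_inv_le (n : ℕ) (c : ℝ) (hc : 0 ≤ c) :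
    ∑ j ∈ Icc 1 n, c / j ≤ c * (1 + Real.log n) := by
  have h1 : ∑ j ∈ Icc 1 n, c / (j : ℝ) = c * ((harmonic n : ℚ) : ℝ) := by
    rw [harmonic_eq_sum_Icc]
    push_cast
    rw [mul_sum]
    exact sum_congr rfl fun j _ => by rw [div_eq_mul_inv]
  rw [h1]
  exact mul_le_mul_of_nonneg_left (harmonic_le_one_add_log n) hc

/-- the number of pairs which satisfy the criterion -/
theorem card_S (X n U : ℕ) : ((S1 X n U ∪ S2 X n U).card : ℝ) ≤
    2 * U * (X + U) * (1 + Real.log n) := by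
  have h1 : ((S1 X n U ∪ S2 X n U).card : ℝ) ≤ (S1 X n U).card + (S2 X n U).card := by
    exact_mod_cast card_union_le _ _
  have h2 := card_S1 X n U
  have h3 := card_S2 X n U
  have h4 := sum_inv_le n ((U : ℝ) * (X + U)) (by positivity)
  calc ((S1 X n U ∪ S2 X n U).card : ℝ) ≤ (S1 X n U).card + (S2 X n U).card := h1
    _ ≤ (U : ℝ) * (X + U) * (1 + Real.log n) + (U : ℝ) * (X + U) * (1 + Real.log n) := by linarith
    _ = _ := by ring

end Pool.Agent.Helper1.TZ
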