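import Pool.Graph.R_seed8.TH207.Lv2
import Pool.Graph.R_seed8.TH207.Tz3
import Pool.Agent.Helper1.TZ.Term

/-! The divisibility criterion for vertices without denominators and for trapezoidal pairs. -/

set_option autoImplicit false
set_option linter.unusedSectionVars false
set_option linter.unusedSimpArgs false

namespace Pool.Agent.Helper1.TZ

open MvPolynomial Pool.Agent.TH207.Ser

variable {k : Type*} [Field k] [CharZero k] [IsAlgClosed k]

theorem level_crit {a b : ℕ} (ha : 2 ≤ a) (hb : 1 ≤ b) (hcop : Nat.Coprime a b) {D d : ℤ} {e : ℕ}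
    {c : k} {F G : MvPolynomial (Fin 2) k} (hl : D + d - e = 1)
    (hFD : ∀ m, coeff m F ≠ 0 → (m 0 : ℤ) ≤ D) (hGd : ∀ m, coeff m G ≠ 0 → (m 0 : ℤ) ≤ d) :
    ∀ (N : ℕ) {ρ0 σ0 : ℕ} {A : ℤ} {n iF iG : ℕ}, n ≤ N →
      St a b D d e c F G ρ0 σ0 A n iF iG → A < n →
      ∃ n0 u0 : ℕ, (n0 : ℤ) ≤ A - 1 ∧ (u0 : ℤ) ≤ A ^ 2 - 3 * A + 1 ∧ (u0 : ℤ) ≤ n - A - 1 ∧
        Crit a b n0 u0 := by
  intro N
  induction N with
  | zero =>
    intro ρ0 σ0 A n iF iG hn S _
    have := S.hn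
    omega
  | succ N ih =>
  intro ρ0 σ0 A n iF iG hnN S hAn
  have hu : 0 < (D + d - e) * n - A := by rw [hl]; linarith
  obtain ⟨ρ, σ, K, H, hlt, X1⟩ := exists_nx ha S hu
  have hT := X1.not_term S.hc (by omega) (by omega) S.hD S.hd S.hB hl hFD hGd
  obtain ⟨f, g, h, c', Y⟩ := X1.form ha hcop S hT
  have hρ := X1.hρ
  have hσ : 1 ≤ σ := by
    rcases Nat.eq_zero_or_pos σ with h0 | h0
    · subst h0; omega
    · exact h0
  have hKz : (0 : ℤ) < K := by exact_mod_cast X1.hK0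
  have hHz : (0 : ℤ) < H := by exact_mod_cast X1.hH0
  have hρz : (0 : ℤ) < ρ := by exact_mod_cast hρ
  have hσz : (1 : ℤ) ≤ σ := by exact_mod_cast hσ
  have hK := X1.hK
  rw [hl, mul_one] at hK
  have hρ2 : 2 ≤ ρ := by
    have : (2 : ℤ) ≤ ρ := by linarith
    exact_mod_cast this
  have hmain := X1.hu
  rw [hl, one_mul] at hmain
  have h0 : H < n * K := by
    have h1 : (0 : ℤ) < ρ * (n - A) := mul_pos hρz (by linarith)
    zify; linarith
  obtain ⟨r, μ, h1, h2, h3, hμ⟩ := Y.root ha S.hn X1.hK0 h0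
  obtain ⟨μ0, g1, g2⟩ := Y.hm 0
  obtain ⟨A0, iF', iG', e1, L1, L2, e2, e3⟩ := Y.low hcop S X1 g1 g2
  have hA01 : 1 ≤ A0 := by
    have h4 : (0 : ℤ) < ρ * A0 := by rw [e1]; positivity
    have := pos_of_mul_pos_right h4 hρz.le
    linarith
  have hμ0n : μ0 < n := by
    have := Y.hz
    rw [g1] at this
    exact Nat.lt_of_mul_lt_mul_left this
  have haz : (2 : ℤ) ≤ a := by exact_mod_cast ha
  -- the multiplicity of zero is not critical
  have hne : H ≠ μ0 * K := by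
    intro h4
    rcases Nat.eq_zero_or_pos μ0 with h5 | h5
    · subst h5
      rw [zero_mul] at h4
      have := X1.hH0
      omega
    · have h6 : f.IsRoot 0 := by
        rw [← Polynomial.rootMultiplicity_pos Y.hf0, g1]
        exact Nat.mul_pos (by omega) h5
      have h7 := (root_local X1.hK0 Y.hc' Y.hf0 Y.heq h6).2
      apply h7
      rw [g1, h4]; ring
  rcases lt_or_gt_of_ne hne with h4 | h4
  · -- the edge stays above the diagonal
    have hμ01 : 1 ≤ μ0 := by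
      rcases Nat.eq_zero_or_pos μ0 with h5 | h5
      · subst h5; omega
      · exact h5
    have S' : St a b D d e c F G ρ σ A0 μ0 iF' iG' :=
      ⟨S.hc, S.hB, L1, L2, e2, e3, hρ, hμ01⟩
    have h4z : (H : ℤ) < μ0 * K := by exact_mod_cast h4
    have h5 : A0 < μ0 := by
      have h6 : (ρ : ℤ) * A0 < ρ * μ0 := by
        rw [e1]
        rw [hK] at h4z
        linarith
      exact lt_of_mul_lt_mul_left h6 hρz.le
    obtain ⟨n0, u0, i0, i1, i2, i3⟩ := ih (by omega : μ0 ≤ N) S' h5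
    have h6 : A0 < A := by
      have h7 : (ρ : ℤ) * A0 < ρ * A := by
        have h8 : (ρ : ℤ) * A = H + σ * n := by rw [X1.hH]; ring
        rw [e1, h8]
        have h9 : (μ0 : ℤ) < n := by exact_mod_cast hμ0n
        have h10 : (σ : ℤ) * μ0 < σ * n := mul_lt_mul_of_pos_left h9 (by linarith)
        linarith
      exact lt_of_mul_lt_mul_left h7 hρz.le
    refine ⟨n0, u0, by linarith, ?_, ?_, i3⟩
    · have h7 : (0 : ℤ) ≤ (A - A0) * (A + A0 - 3) :=
        mul_nonneg (by linarith) (by linarith)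
      linarith
    · have h7 : (ρ : ℤ) * (μ0 - A0) < ρ * (n - A) := by
        rw [hmain]
        have h9 : (μ0 : ℤ) < n := by exact_mod_cast hμ0n
        have h10 : (μ0 : ℤ) * K < n * K := mul_lt_mul_of_pos_right h9 hKz
        have h11 : (ρ : ℤ) * (μ0 - A0) = μ0 * K - H := by rw [mul_sub, e1, hK]; ring
        linarith
      have h8 := lt_of_mul_lt_mul_left h7 hρz.le
      linarith
  · -- the edge crosses the diagonal
    have hr : r ≠ 0 := by
      rintro rfl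
      rw [g1] at h1
      have : μ0 = μ := Nat.eq_of_mul_eq_mul_left (by omega) h1
      subst this
      omega
    have hfr : f.IsRoot r := by
      rw [← Polynomial.rootMultiplicity_pos Y.hf0, h1]
      exact Nat.mul_pos (by omega) (by omega)
    obtain ⟨s, hs, hT'⟩ := h_natDegree hρ2 Y X1.hK0 hr hfr
    have hn0 : 0 < n := S.hn
    have htop := top_coeff Y.heq (by rw [Y.hfd]; exact Nat.mul_pos (by omega) hn0) (by
      rw [hT']
      have : 2 * 1 ≤ ρ * s := Nat.mul_le_mul hρ2 hs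
      omega)
    rw [hT', Y.hfd] at htop
    have htop2 : H * (1 + ρ * s) = K * n := by
      apply Nat.eq_of_mul_eq_mul_left (by omega : 0 < a)
      calc a * (H * (1 + ρ * s)) = a * H * (1 + ρ * s) := by ring
        _ = K * (a * n) := htop
        _ = a * (K * n) := by ring
    have horb := orbit hρ Y.hf0 Y.hres hr
    rw [h1, g1, Y.hfd] at horb
    have horb2 : ρ * μ + μ0 ≤ n := by
      apply Nat.le_of_mul_le_mul_left _ (by omega : 0 < a)
      calc a * (ρ * μ + μ0) = ρ * (a * μ) + a * μ0 := by ring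
        _ ≤ a * n := horb
    obtain ⟨hμ2, hbd, S0, c1, c2, c3, c4, c5, c6, c7⟩ :=
      cross_arith hσ X1.hK0 hK X1.hH X1.hcop e1 hA01 h4 hs htop2 horb2 h3
    obtain ⟨iF2, iG2, _, S2⟩ := Y.step1 S X1 hμ h1 h2
    have h3z : (H : ℤ) < μ * K := by exact_mod_cast h3
    obtain ⟨u', hu'⟩ := Int.eq_ofNat_of_zero_le (by linarith : (0 : ℤ) ≤ μ * K - H)
    have hl2 : (ρ * D + ρ * d - ((ρ * e : ℕ) : ℤ)) = ρ := by
      push_cast
      linear_combination (ρ : ℤ) * hl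
    have hu2 : (u' : ℤ) = (ρ * D + ρ * d - ((ρ * e : ℕ) : ℤ)) * μ - (H + σ * μ) := by
      rw [hl2, ← hu', hK]; ring
    have hbb := crit_bound ha hcop u' ρ S2 hu2 (by
      have : (0 : ℤ) < u' := by rw [← hu']; linarith
      exact_mod_cast this) (by
      rw [hl2]
      have : (0 : ℤ) ≤ σ := by positivity
      push_cast
      linarith)
    refine ⟨μ, u', ?_, ?_, ?_, hbb⟩
    · have h5 : (μ : ℤ) ≤ S0 := by exact_mod_cast c7
      have h6 : (0 : ℤ) ≤ S0 := by positivity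
      have h7 : 1 * (S0 : ℤ) ≤ σ * S0 := mul_le_mul_of_nonneg_right hσz h6
      linarith
    · rw [← hu']; exact hbd
    · rw [← hu']
      have h6 : (ρ : ℤ) * (μ * K - H) < ρ * (n - A) := by
        rw [hmain]
        have h7 : (ρ : ℤ) * μ ≤ n := by
          have : ρ * μ ≤ n := by omega
          exact_mod_cast this
        have h8 : (ρ : ℤ) * μ * K ≤ n * K := mul_le_mul_of_nonneg_right h7 hKz.le
        have h9 : 1 * (H : ℤ) < ρ * H := mul_lt_mul_of_pos_right (by linarith) hHz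
        linarith
      have := lt_of_mul_lt_mul_left h6 hρz.le
      linarith

/-- The direction `(1, 0)`. -/
theorem main0 {a b : ℕ} (ha : 2 ≤ a) (hb : 1 ≤ b) (hcop : Nat.Coprime a b)
    {p : ℕ} (hp : 0 < p) {c : k} (hc : c ≠ 0) {F G : MvPolynomial (Fin 2) k}
    (hF : Le (a * p) 0 F) (hG : Le (b * p) 0 G)
    (h : pderiv 0 F * pderiv 1 G - pderiv 1 F * pderiv 0 G = C c)
    (hf0 : tp (a * p) 0 F ≠ 0) (hg0 : tp (b * p) 0 G ≠ 0) :
    ∃ q, (tp (a * p) 0 F).natDegree = a * q ∧ (tp (b * p) 0 G).natDegree = b * q ∧ p ≠ q ∧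
      (p < q → ∃ n0 u0 : ℕ, (n0 : ℤ) ≤ p - 1 ∧ (u0 : ℤ) ≤ (p : ℤ) ^ 2 - 3 * p + 1 ∧
        (u0 : ℤ) ≤ q - p - 1 ∧ Crit a b n0 u0) := by
  have h1 : 2 * 1 ≤ a * p := Nat.mul_le_mul ha hp
  have h2 : 1 * 1 ≤ b * p := Nat.mul_le_mul hb hp
  have hB := Bk_W hF hG (Nat.zero_le _) (Nat.zero_le _) (by omega) h
  obtain ⟨q, e1, e2, e3, _, e5⟩ := start ha hb hcop (A := p) (l := 1) (e := a * p + b * p - 1)
    hc (by simpa using hB) (by rw [add_mul]; omega) (by omega) hp one_pos hf0 hg0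
  refine ⟨q, e1, e2, by rwa [mul_one] at e3, fun hlt => ?_⟩
  obtain ⟨r, μ, g1, g2, _, S⟩ := e5 (by rwa [mul_one])
  have h3 : ∀ m, coeff m (W (a * p) 0 F) ≠ 0 → m 0 ≤ a * p := by
    intro m hm
    obtain ⟨m', _, h4, _⟩ := exists_of_coeff_W hm
    omega
  have h4 : ∀ m, coeff m (W (b * p) 0 G) ≠ 0 → m 0 ≤ b * p := by
    intro m hm
    obtain ⟨m', _, h4, _⟩ := exists_of_coeff_W hm
    omega
  have h5 := shf_support (r := r) h3
  have h6 := shf_support (r := r) h4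
  obtain ⟨n0, u0, i0, i1, i2, i3⟩ := level_crit ha hb hcop (D := ((a * p : ℕ) : ℤ))
    (d := ((b * p : ℕ) : ℤ)) (e := a * p + b * p - 1) (by
      rw [Nat.cast_sub (by omega)]; push_cast; ring)
    (fun m hm => by exact_mod_cast h5 m hm) (fun m hm => by exact_mod_cast h6 m hm) μ le_rfl S (by
      have : p < μ := by omega
      exact_mod_cast this)
  refine ⟨n0, u0, i0, i1, ?_, i3⟩
  have : (μ : ℤ) ≤ q := by exact_mod_cast g2
  linarith

/-- Trapezoidal pairs with a nonzero constant bracket satisfy the criterion. -/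
theorem main {a b p q : ℕ} (ha : 2 ≤ a) (hb : 1 ≤ b) (hcop : Nat.Coprime a b)
    (hp : 0 < p) (hpq : p < q) {F G : MvPolynomial (Fin 2) k} {c : k} (hc : c ≠ 0)
    (hJ : pderiv 0 F * pderiv 1 G - pderiv 1 F * pderiv 0 G = C c)
    (hF1 : ∀ d, coeff d F ≠ 0 → d 1 ≤ a * q ∧ d 0 + d 1 ≤ a * p + a * q)
    (hF2 : coeff (ee (a * p) (a * q)) F ≠ 0)
    (hF3 : ∀ i ≤ a * q, ((X 0 + X 1 : MvPolynomial (Fin 2) k) ^ (a * q - i)) ∣
      homogeneousComponent (a * p + a * q - i) F)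
    (hG1 : ∀ d, coeff d G ≠ 0 → d 0 + d 1 ≤ b * p + b * q)
    (hG2 : coeff (ee (b * p) (b * q)) G ≠ 0) :
    ∃ n0 u0 : ℕ, (n0 : ℤ) ≤ p - 1 ∧ (u0 : ℤ) ≤ (p : ℤ) ^ 2 - 3 * p + 1 ∧
        (u0 : ℤ) ≤ q - p - 1 ∧ Crit a b n0 u0 := by
  have hFt : F.totalDegree ≤ a * p + a * q := Pool.Agent.TH207.Tz.tot_le fun d hd => (hF1 d hd).2
  have hGt : G.totalDegree ≤ b * p + b * q := Pool.Agent.TH207.Tz.tot_le hG1
  have hGt' : G.totalDegree = b * p + b * q := by
    apply le_antisymm hGt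
    have := Pool.Agent.TH207.Tz.le_tot hG2
    rwa [ee_zero, ee_one] at this
  obtain ⟨κ, hκ, hT⟩ := Pool.Agent.TH207.Tz.top_form hF1 hF2 (by
    have := hF3 0 (Nat.zero_le _)
    simpa using this)
  obtain ⟨t1, t2⟩ := Pool.Agent.TH207.Tz.top_z hFt hκ hT
  have hJ' : pderiv 0 (Pool.Agent.TH207.Tz.ph F) * pderiv 1 (Pool.Agent.TH207.Tz.ph G) -
      pderiv 1 (Pool.Agent.TH207.Tz.ph F) * pderiv 0 (Pool.Agent.TH207.Tz.ph G) = C c := by
    rw [Pool.Agent.TH207.Tz.jac_ph, hJ, Pool.Agent.TH207.Tz.ph_C]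
  have hG3 : ∃ d, coeff d (Pool.Agent.TH207.Tz.ph G) ≠ 0 ∧ d 0 + d 1 = b * p + b * q := by
    have h0 : Pool.Agent.TH207.Tz.ph G ≠ 0 := by
      intro h0
      have h1 := Pool.Agent.TH207.Tz.ps_ph G
      rw [h0, map_zero] at h1
      rw [← h1, coeff_zero] at hG2
      exact hG2 rfl
    have h1 : ((Pool.Agent.TH207.Tz.ph G).support).Nonempty := by
      rw [Finset.nonempty_iff_ne_empty, Ne, support_eq_empty]; exact h0
    obtain ⟨d, h2, h3⟩ := Finset.exists_mem_eq_sup (Pool.Agent.TH207.Tz.ph G).support h1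
      (fun m => m.sum (fun _ e => e))
    refine ⟨d, mem_support_iff.1 h2, ?_⟩
    rw [← hGt', ← Pool.Agent.TH207.Tz.totalDegree_ph' G]
    unfold totalDegree
    rw [h3, Pool.Agent.TH207.Tz.fsum]
  obtain ⟨r1, r2, r3, r4⟩ := Pool.Agent.TH207.Tz.pair ha hb hp (by omega) hc hJ'
    (Pool.Agent.TH207.Tz.deg_z hFt hF3)
    (Pool.Agent.TH207.Tz.Le.of_tot ((Pool.Agent.TH207.Tz.totalDegree_ph F).trans hFt)) t1 t2
    (Pool.Agent.TH207.Tz.Le.of_tot ((Pool.Agent.TH207.Tz.totalDegree_ph G).trans hGt)) hG3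
  obtain ⟨q', s1, _, _, s4⟩ := main0 ha hb hcop hp hc (Pool.Agent.TH207.Tz.deg_z hFt hF3)
    r1 hJ' r3 r4
  have hqq : q' = q := by
    rw [r2] at s1
    exact (Nat.eq_of_mul_eq_mul_left (by omega) s1).symm
  rw [hqq] at s4
  exact s4 hpq

end Pool.Agent.Helper1.TZ
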