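import Pool.Graph.R_seed8.Y83.NP.Tz
import Pool.Graph.R_pool_sql_team_seeded_f72693b1.W290.J6.NG
import Pool.Agent.Helper1.TZ.Level

/-! The divisibility criterion for all pairs with a nonzero constant bracket. -/

set_option autoImplicit false
set_option linter.unusedSectionVars false
set_option linter.unusedSimpArgs false

namespace Pool.Agent.Helper1.TZ

open MvPolynomial
open Pool.Agent.H938R2.JC hiding dh
open Pool.Agent.W443.J5 Pool.Agent.W443.J6

universe u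

/-- Reduction of the `x`-degree by automorphisms. -/
theorem descend (k : Type u) [Field k] [IsAlgClosed k] [CharZero k] (a b : ℕ) (ha : 2 ≤ a)
    (hb : 2 ≤ b) (hab : Nat.Coprime a b) : ∀ m : ℕ, 1 ≤ m → ∀ f g : MvPolynomial (Fin 2) k,
    Bad f g → Sim a b f g → Sim b a g f → Top 1 0 (a * m) f →
    ∃ (f' g' : MvPolynomial (Fin 2) k) (m' v : ℕ), 1 ≤ m' ∧ m' ≤ m ∧ m' < v ∧ Bad f' g' ∧
      Sim a b f' g' ∧ Low 1 0 (a * m') (a * v) f' := by
  intro m
  induction m using Nat.strong_induction_on with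
  | _ m ih =>
    intro hm f g hbad hs hs' htop
    rcases Asm.st1 k f g a b m ha hb hab hm hbad hs hs' htop with
      ⟨f', g', v, hv, hbad', hs1, hs2, hlow⟩ | ⟨f', g', q, hq, hbad', hs1, hs2, hlow, hupp⟩
    · exact ⟨f', g', m, v, hm, le_rfl, hv, hbad', hs1, hlow⟩
    · obtain ⟨f2, g2, m', hm', hm'', hbad2, hs3, hs4, htop2⟩ :=
        Asm.ps k f' g' a b m q ha hb hab hm hq hbad' hs1 hs2 hlow hupp
      obtain ⟨f3, g3, m3, v3, i1, i2, i3, i4, i5, i6⟩ := ih m' hm'' hm' f2 g2 hbad2 hs3 hs4 htop2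
      exact ⟨f3, g3, m3, v3, i1, by omega, i3, i4, i5, i6⟩

theorem ee_eq_e (i j : ℕ) : Pool.Agent.TH207.Ser.ee i j = e i j := rfl

theorem crit_of_low (k : Type u) [Field k] [IsAlgClosed k] [CharZero k] (a b : ℕ) (ha : 2 ≤ a)
    (hb : 2 ≤ b) (hab : Nat.Coprime a b) (f g : MvPolynomial (Fin 2) k) (m v : ℕ) (hm : 1 ≤ m)
    (hmv : m < v) (hbad : Bad f g) (hs : Sim a b f g) (hlow : Low 1 0 (a * m) (a * v) f) :
    ∃ n0 u0 : ℕ, (n0 : ℤ) ≤ m - 1 ∧ (u0 : ℤ) ≤ (m : ℤ) ^ 2 - 3 * m + 1 ∧ Crit a b n0 u0 := by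
  obtain ⟨p', q', e1, e2, hlg⟩ := hs.2.1 1 0 one_pos _ _ hlow
  have e3 : p' = m := (Nat.eq_of_mul_eq_mul_left (by omega) e1).symm
  have e4 : q' = v := (Nat.eq_of_mul_eq_mul_left (by omega) e2).symm
  subst e3 e4
  obtain ⟨c, hc, hJ⟩ := hbad.1
  have hle : ∀ (P : MvPolynomial (Fin 2) k) (i j : ℕ), Low 1 0 i j P →
      Pool.Agent.TH207.Ser.Le i 0 P := by
    intro P i j h r hr
    have h1 := h.2 r hr
    rw [zero_mul, add_zero]
    rcases h1 with h1 | h1
    · have : (r 0 : ℤ) < i := by linarith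
      have : r 0 < i := by exact_mod_cast this
      omega
    · have : (r 0 : ℤ) = i := by linarith [h1.1]
      have : r 0 = i := by exact_mod_cast this
      omega
  have hlo : ∀ (P : MvPolynomial (Fin 2) k) (i j : ℕ), Low 1 0 i j P →
      Pool.Agent.TH207.Ser.Lo 1 0 0 j (Pool.Agent.TH207.Ser.W i 0 P) := by
    intro P i j h
    constructor
    · refine ⟨Pool.Agent.TH207.Ser.ee 0 j, ?_, Pool.Agent.TH207.Ser.ee_zero _ _,
        Pool.Agent.TH207.Ser.ee_one _ _⟩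
      have h1 := Pool.Agent.TH207.Ser.coeff_W (hle P i j h) (e i j) h.1
      rw [e_zero, e_one, zero_mul, add_zero, Nat.sub_self] at h1
      rw [h1]
      exact h.1
    · intro r hr
      obtain ⟨r', h1, h2, h3⟩ := Pool.Agent.TH207.Ser.exists_of_coeff_W hr
      rw [zero_mul, add_zero] at h2
      have h4 := h.2 r' h1
      rcases h4 with h4 | h4
      · left
        have : (r' 0 : ℤ) < i := by linarith
        have : r' 0 < i := by exact_mod_cast this
        omega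
      · have : (r' 0 : ℤ) = i := by linarith [h4.1]
        have h5 : r' 0 = i := by exact_mod_cast this
        right
        refine ⟨by omega, ?_⟩
        have := h4.2
        omega
  have hF := hle _ _ _ hlow
  have hG := hle _ _ _ hlg
  have hJ' : pderiv 0 f * pderiv 1 g - pderiv 1 f * pderiv 0 g = C c := hJ
  have h1 : 2 * 1 ≤ a * p' := Nat.mul_le_mul ha hm
  have h2 : 2 * 1 ≤ b * p' := Nat.mul_le_mul hb hm
  have hB := Pool.Agent.TH207.Ser.Bk_W hF hG (Nat.zero_le _) (Nat.zero_le _) (by omega) hJ'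
  have S : Pool.Agent.TH207.Ser.St a b ((a * p' : ℕ) : ℤ) ((b * p' : ℕ) : ℤ) (a * p' + b * p' - 1)
      c (Pool.Agent.TH207.Ser.W (a * p') 0 f) (Pool.Agent.TH207.Ser.W (b * p') 0 g) 1 0 p' q'
      0 0 := by
    refine ⟨hc, by simpa using hB, hlo _ _ _ hlow, hlo _ _ _ hlg, ?_, ?_, one_pos, by omega⟩
    · push_cast; ring
    · push_cast; ring
  have h3 : ∀ (P : MvPolynomial (Fin 2) k) (i : ℕ), ∀ m, coeff m (Pool.Agent.TH207.Ser.W i 0 P) ≠ 0
      → (m 0 : ℤ) ≤ ((i : ℕ) : ℤ) := by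
    intro P i m hm
    obtain ⟨m', _, h4, _⟩ := Pool.Agent.TH207.Ser.exists_of_coeff_W hm
    exact_mod_cast (by omega : m 0 ≤ i)
  obtain ⟨n0, u0, i0, i1, _, i3⟩ := level_crit ha (by omega) hab (D := ((a * p' : ℕ) : ℤ))
    (d := ((b * p' : ℕ) : ℤ)) (e := a * p' + b * p' - 1) (by
      rw [Nat.cast_sub (by omega)]; push_cast; ring)
    (h3 f (a * p')) (h3 g (b * p')) q' le_rfl S (by exact_mod_cast hmv)
  exact ⟨n0, u0, i0, i1, i3⟩

/-- The total degree is the weight of the top form. -/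
theorem top_total {k : Type u} [Field k] {f : MvPolynomial (Fin 2) k} (hf : f ≠ 0) :
    Top 1 1 (f.totalDegree : ℤ) f := by
  have h1 : (f.support).Nonempty := by
    rw [Finset.nonempty_iff_ne_empty, Ne, support_eq_empty]; exact hf
  constructor
  · intro m hm
    have := Pool.Agent.TH207.Tz.le_tot hm
    have h2 : ((m 0 + m 1 : ℕ) : ℤ) ≤ (f.totalDegree : ℤ) := by exact_mod_cast this
    push_cast at h2
    linarith
  · obtain ⟨d, h2, h3⟩ := Finset.exists_mem_eq_sup f.support h1 (fun m => m.sum (fun _ e => e))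
    refine ⟨d, mem_support_iff.1 h2, ?_⟩
    have h4 : f.totalDegree = d 0 + d 1 := by
      unfold totalDegree
      rw [h3, Pool.Agent.TH207.Tz.fsum]
    rw [h4]; push_cast; ring

/-- The criterion for all pairs. -/
theorem keller_crit {k : Type u} [Field k] [IsAlgClosed k] [CharZero k] {a b D : ℕ} (ha : 2 ≤ a)
    (hb : 2 ≤ b) (hab : Nat.Coprime a b) {f g : MvPolynomial (Fin 2) k} {c : k} (hc : c ≠ 0)
    (hJ : pderiv 0 f * pderiv 1 g - pderiv 1 f * pderiv 0 g = C c)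
    (hF : f.totalDegree = a * D) (hG : g.totalDegree = b * D) :
    ∃ n0 u0 : ℕ, (n0 : ℤ) ≤ D - 1 ∧ (u0 : ℤ) ≤ (D : ℤ) ^ 2 - 3 * D + 1 ∧ Crit a b n0 u0 := by
  have hJ' : J f g = C c := hJ
  have hf0 : f ≠ 0 := by
    rintro rfl
    rw [map_zero, map_zero, zero_mul, zero_mul, sub_zero] at hJ
    exact hc (C_eq_zero.1 hJ.symm)
  have hg0 : g ≠ 0 := by
    rintro rfl
    rw [map_zero, map_zero, mul_zero, mul_zero, sub_zero] at hJ
    exact hc (C_eq_zero.1 hJ.symm)
  have hD : 1 ≤ D := by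
    rcases Nat.eq_zero_or_pos D with h0 | h0
    · exfalso
      subst h0
      rw [mul_zero] at hF
      rw [totalDegree_eq_zero_iff_eq_C] at hF
      rw [hF] at hJ
      simp only [pderiv_C, zero_mul, sub_zero] at hJ
      exact hc (C_eq_zero.1 hJ.symm)
    · exact h0
  have t1 := top_total hf0
  have t2 := top_total hg0
  rw [hF] at t1
  rw [hG] at t2
  push_cast at t1 t2
  have hng : ¬ Good f g := Pool.Agent.W290.J6.t_NG k f g a b D c ha hb hab hD hc hJ' t1 t2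
  have hbad : Bad f g := ⟨⟨c, hc, hJ'⟩, hng⟩
  obtain ⟨s1, s2⟩ := Asm.sim k f g hbad a b (by omega) (by omega) hab 1 1 D (Or.inl one_pos) t1 t2
  have t3 : Top 1 0 (degreeOf 0 f : ℤ) f := Pool.Agent.W216.J6.top_deg hf0 _ rfl
  obtain ⟨n, hn, hdn, t4⟩ := s1.1 1 0 _ (Or.inl one_pos) t3
  obtain ⟨m, rfl⟩ := Int.eq_ofNat_of_zero_le hn.le
  have hdm : degreeOf 0 f = a * m := by exact_mod_cast hdn
  have hm1 : 1 ≤ m := by exact_mod_cast hn
  have hmD : m ≤ D := by
    have h1 : degreeOf 0 f ≤ f.totalDegree := degreeOf_le_totalDegree f 0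
    rw [hdm, hF] at h1
    exact Nat.le_of_mul_le_mul_left h1 (by omega)
  rw [hdn] at t3
  obtain ⟨f', g', m', v, i1, i2, i3, i4, i5, i6⟩ := descend k a b ha hb hab m hm1 f g hbad s1 s2 t3
  obtain ⟨n0, u0, j0, j1, j2⟩ := crit_of_low k a b ha hb hab f' g' m' v i1 i3 i4 i5 i6
  have hz : (m' : ℤ) ≤ D := by exact_mod_cast i2.trans hmD
  have hz1 : (1 : ℤ) ≤ m' := by exact_mod_cast i1
  have hu0 : (0 : ℤ) ≤ u0 := by positivity
  refine ⟨n0, u0, by linarith, ?_, j2⟩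
  rcases lt_or_ge (m' : ℤ) 3 with h3 | h3
  · -- impossible
    exfalso
    have h4 : (m' : ℤ) = 1 ∨ (m' : ℤ) = 2 := by omega
    rcases h4 with h4 | h4 <;> rw [h4] at j1 <;> linarith
  · nlinarith

end Pool.Agent.Helper1.TZ
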