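import Mathlib
import Pool.Agent.Helper1.TZ.Count
import Pool.Agent.Helper1.TZ.JC

/-! Counting the pairs of degrees of Keller pairs. -/

set_option autoImplicit false

namespace Pool.Agent.Helper1.TZ

open Finset MvPolynomial

/-- pairs with a divisibility -/
def Sd (N : ℕ) : Finset (ℕ × ℕ) :=
  (Icc 1 N).biUnion fun d => (Icc 1 (N / d)).image fun t => (d, d * t)

/-- pairs with greatest common divisor `D` which satisfy the criterion -/
def Sa (N D : ℕ) : Finset (ℕ × ℕ) :=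
  (S1 (N / D) D (D * D) ∪ S2 (N / D) D (D * D)).image fun r => (r.1 * D, r.2 * D)

/-- all pairs of multiples of `D` -/
def Sb (N D : ℕ) : Finset (ℕ × ℕ) :=
  (Icc 1 (N / D) ×ˢ Icc 1 (N / D)).image fun r => (r.1 * D, r.2 * D)

/-- the exceptional pairs of degrees -/
def Se (N T : ℕ) : Finset (ℕ × ℕ) :=
  Sd N ∪ ((Icc 1 T).biUnion (Sa N) ∪ (Ioo T (N + 1)).biUnion (Sb N))

theorem card_Sd (N : ℕ) : ((Sd N).card : ℝ) ≤ N * (1 + Real.log N) := by
  have h1 : (Sd N).card ≤ ∑ d ∈ Icc 1 N, N / d := by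
    refine card_biUnion_le.trans (sum_le_sum fun d _ => ?_)
    refine card_image_le.trans ?_
    rw [Nat.card_Icc, Nat.add_sub_cancel]
  have h2 : ((∑ d ∈ Icc 1 N, N / d : ℕ) : ℝ) ≤ ∑ d ∈ Icc 1 N, (N : ℝ) / d := by
    push_cast
    exact sum_le_sum fun d _ => cast_div_le' N d
  exact (by exact_mod_cast h1 : ((Sd N).card : ℝ) ≤ ((∑ d ∈ Icc 1 N, N / d : ℕ) : ℝ)).trans
    (h2.trans (sum_inv_le N N (Nat.cast_nonneg _)))

theorem card_Sa {N D : ℕ} (hD : 1 ≤ D) : ((Sa N D).card : ℝ) ≤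
    (2 * D * N + 2 * (D : ℝ) ^ 4) * (1 + Real.log D) := by
  have h1 : ((Sa N D).card : ℝ) ≤ ((S1 (N / D) D (D * D) ∪ S2 (N / D) D (D * D)).card : ℝ) := by
    exact_mod_cast card_image_le
  refine h1.trans ((card_S _ _ _).trans ?_)
  have hD' : (1 : ℝ) ≤ D := by exact_mod_cast hD
  have hlog : 0 ≤ Real.log D := Real.log_nonneg hD'
  apply mul_le_mul_of_nonneg_right _ (by linarith)
  push_cast
  have h2 := cast_div_le' N D
  calc 2 * ((D : ℝ) * D) * (((N / D : ℕ) : ℝ) + D * D) ≤ 2 * ((D : ℝ) * D) * ((N : ℝ) / D + D * D) := by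
        apply mul_le_mul_of_nonneg_left _ (by positivity)
        linarith
    _ = 2 * D * N + 2 * (D : ℝ) ^ 4 := by field_simp

theorem card_Sb {N D : ℕ} : ((Sb N D).card : ℝ) ≤ (N : ℝ) ^ 2 * ((D : ℝ) ^ 2)⁻¹ := by
  have h1 : (Sb N D).card ≤ (N / D) * (N / D) := by
    refine card_image_le.trans ?_
    rw [card_product, Nat.card_Icc, Nat.add_sub_cancel]
  have h2 := cast_div_le' N D
  have h3 : ((Sb N D).card : ℝ) ≤ ((N / D : ℕ) : ℝ) * ((N / D : ℕ) : ℝ) := by exact_mod_cast h1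
  have h4 : (0 : ℝ) ≤ ((N / D : ℕ) : ℝ) := Nat.cast_nonneg _
  calc ((Sb N D).card : ℝ) ≤ ((N / D : ℕ) : ℝ) * ((N / D : ℕ) : ℝ) := h3
    _ ≤ (N / D) * (N / D) := mul_le_mul h2 h2 h4 (by positivity)
    _ = (N : ℝ) ^ 2 * ((D : ℝ) ^ 2)⁻¹ := by ring

theorem card_Se {N : ℕ} (hN : 1 ≤ N) : ∃ T : ℕ, ((Se N T).card : ℝ) ≤
    7 * (N : ℝ) ^ (5 / 3 : ℝ) * (1 + Real.log N) := by
  have hN' : (1 : ℝ) ≤ N := by exact_mod_cast hN
  obtain ⟨x, hx⟩ : ∃ x : ℝ, x = (N : ℝ) ^ (1 / 3 : ℝ) := ⟨_, rfl⟩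
  have hx1 : 1 ≤ x := by
    rw [hx]; exact Real.one_le_rpow hN' (by norm_num)
  have hx0 : 0 ≤ x := by linarith
  have hx3 : (N : ℝ) = x ^ 3 := by
    rw [hx, ← Real.rpow_natCast, ← Real.rpow_mul (by linarith)]
    norm_num
  have hx5 : (N : ℝ) ^ (5 / 3 : ℝ) = x ^ 5 := by
    rw [hx, ← Real.rpow_natCast, ← Real.rpow_mul (by linarith)]
    norm_num
  have hL : 0 ≤ Real.log N := Real.log_nonneg hN'
  obtain ⟨L, hLd⟩ : ∃ L : ℝ, L = 1 + Real.log N := ⟨_, rfl⟩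
  have hL1 : 1 ≤ L := by linarith
  refine ⟨⌊x⌋₊, ?_⟩
  obtain ⟨T, hT⟩ : ∃ T : ℕ, T = ⌊x⌋₊ := ⟨_, rfl⟩
  rw [← hT]
  have hTx : (T : ℝ) ≤ x := by rw [hT]; exact Nat.floor_le hx0
  have hxT : x < T + 1 := by rw [hT]; exact Nat.lt_floor_add_one x
  have hT0 : (0 : ℝ) ≤ T := Nat.cast_nonneg _
  have h1 : ((Se N T).card : ℝ) ≤ (Sd N).card + (∑ D ∈ Icc 1 T, ((Sa N D).card : ℝ) +
      ∑ D ∈ Ioo T (N + 1), ((Sb N D).card : ℝ)) := by
    have h2 : (Se N T).card ≤ (Sd N).card + (∑ D ∈ Icc 1 T, (Sa N D).card +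
      ∑ D ∈ Ioo T (N + 1), (Sb N D).card) := by
      refine (card_union_le _ _).trans (Nat.add_le_add_left ?_ _)
      exact (card_union_le _ _).trans (Nat.add_le_add card_biUnion_le card_biUnion_le)
    exact_mod_cast h2
  have h2 : ∑ D ∈ Icc 1 T, ((Sa N D).card : ℝ) ≤ 4 * x ^ 5 * L := by
    have h3 : ∀ D ∈ Icc 1 T, ((Sa N D).card : ℝ) ≤ 4 * x ^ 4 * L := by
      intro D hD
      have hD1 := (mem_Icc.1 hD).1
      have hD1' : (1 : ℝ) ≤ D := by exact_mod_cast hD1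
      have hDT : (D : ℝ) ≤ T := by exact_mod_cast (mem_Icc.1 hD).2
      have hDx : (D : ℝ) ≤ x := hDT.trans hTx
      have hDN : (D : ℝ) ≤ N := by
        rw [hx3]
        have : x ^ 1 ≤ x ^ 3 := pow_le_pow_right₀ hx1 (by norm_num)
        linarith
      refine (card_Sa hD1).trans ?_
      have h4 : 1 + Real.log D ≤ L := by
        rw [hLd]
        have := Real.log_le_log (by linarith) hDN
        linarith
      have h5 : (D : ℝ) ^ 4 ≤ x ^ 4 := pow_le_pow_left₀ (by linarith) hDx 4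
      have h6 : (D : ℝ) * N ≤ x ^ 4 := by
        rw [hx3]
        calc (D : ℝ) * x ^ 3 ≤ x * x ^ 3 := mul_le_mul_of_nonneg_right hDx (by positivity)
          _ = x ^ 4 := by ring
      have h7 : 0 ≤ Real.log D := Real.log_nonneg hD1'
      calc (2 * D * N + 2 * (D : ℝ) ^ 4) * (1 + Real.log D) ≤ (4 * x ^ 4) * (1 + Real.log D) := by
            apply mul_le_mul_of_nonneg_right _ (by linarith)
            nlinarith
        _ ≤ 4 * x ^ 4 * L := mul_le_mul_of_nonneg_left h4 (by positivity)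
    calc ∑ D ∈ Icc 1 T, ((Sa N D).card : ℝ) ≤ ∑ D ∈ Icc 1 T, 4 * x ^ 4 * L := sum_le_sum h3
      _ = T * (4 * x ^ 4 * L) := by
          rw [sum_const, Nat.card_Icc, Nat.add_sub_cancel, nsmul_eq_mul]
      _ ≤ x * (4 * x ^ 4 * L) := mul_le_mul_of_nonneg_right hTx (by positivity)
      _ = 4 * x ^ 5 * L := by ring
  have h3 : ∑ D ∈ Ioo T (N + 1), ((Sb N D).card : ℝ) ≤ 2 * x ^ 5 * L := by
    calc ∑ D ∈ Ioo T (N + 1), ((Sb N D).card : ℝ)
        ≤ ∑ D ∈ Ioo T (N + 1), (N : ℝ) ^ 2 * ((D : ℝ) ^ 2)⁻¹ := sum_le_sum fun D _ => card_Sb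
      _ = (N : ℝ) ^ 2 * ∑ D ∈ Ioo T (N + 1), ((D : ℝ) ^ 2)⁻¹ := by rw [mul_sum]
      _ ≤ (N : ℝ) ^ 2 * (2 / (T + 1)) :=
          mul_le_mul_of_nonneg_left (sum_Ioo_inv_sq_le T (N + 1)) (by positivity)
      _ ≤ (N : ℝ) ^ 2 * (2 / x) := by
          apply mul_le_mul_of_nonneg_left _ (by positivity)
          exact div_le_div_of_nonneg_left (by norm_num) (by linarith) hxT.le
      _ = 2 * x ^ 5 := by rw [hx3]; field_simp
      _ ≤ 2 * x ^ 5 * L := by
          have : 0 ≤ 2 * x ^ 5 := by positivity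
          nlinarith
  have h4 : ((Sd N).card : ℝ) ≤ x ^ 5 * L := by
    refine (card_Sd N).trans ?_
    rw [← hLd]
    apply mul_le_mul_of_nonneg_right _ (by linarith)
    rw [hx3]
    exact pow_le_pow_right₀ hx1 (by norm_num)
  rw [hx5, ← hLd]
  linarith

/-- The degrees of a pair with a nonzero constant bracket belong to the exceptional set. -/
theorem mem_Se' {k : Type*} [Field k] [IsAlgClosed k] [CharZero k] {N T d1 d2 : ℕ}
    {f g : MvPolynomial (Fin 2) k} {c : k} (hc : c ≠ 0)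
    (hJ : pderiv 0 f * pderiv 1 g - pderiv 1 f * pderiv 0 g = C c)
    (hd1 : f.totalDegree = d1) (hd2 : g.totalDegree = d2)
    (h1 : d1 ≤ d2) (h2 : d2 ≤ N) : (d1, d2) ∈ Se N T := by
  have hpos : 1 ≤ d1 := by
    rcases Nat.eq_zero_or_pos d1 with h0 | h0
    · exfalso
      rw [h0, totalDegree_eq_zero_iff_eq_C] at hd1
      rw [hd1] at hJ
      simp only [pderiv_C, zero_mul, sub_zero] at hJ
      exact hc (C_eq_zero.1 hJ.symm)
    · exact h0
  obtain ⟨D, a, b, hD0, hco, e1, e2⟩ :=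
    Nat.exists_coprime' (m := d1) (n := d2) (Nat.gcd_pos_of_pos_left _ hpos)
  have ha1 : 1 ≤ a := by
    rcases Nat.eq_zero_or_pos a with h0 | h0
    · subst h0; omega
    · exact h0
  have hab : a ≤ b := by
    rw [e1, e2] at h1
    exact Nat.le_of_mul_le_mul_right h1 hD0
  rw [Se, mem_union, mem_union]
  rcases Nat.lt_or_ge a 2 with h3 | h3
  · left
    have ha : a = 1 := by omega
    subst ha
    rw [one_mul] at e1
    rw [Sd, mem_biUnion]
    refine ⟨d1, mem_Icc.2 ⟨hpos, by omega⟩, ?_⟩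
    rw [mem_image]
    refine ⟨b, mem_Icc.2 ⟨by omega, ?_⟩, ?_⟩
    · rw [Nat.le_div_iff_mul_le hpos, e1, ← e2]; exact h2
    · rw [e2, e1, mul_comm]
  · right
    have hne : a ≠ b := by
      rintro rfl
      rw [Nat.coprime_self] at hco
      omega
    have hlt : a < b := lt_of_le_of_ne hab hne
    have hbN : b ≤ N / D := by
      rw [Nat.le_div_iff_mul_le hD0, ← e2]; exact h2
    rcases Nat.lt_or_ge T D with h4 | h4
    · right
      rw [mem_biUnion]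
      refine ⟨D, mem_Ioo.2 ⟨h4, ?_⟩, ?_⟩
      · have : 1 * D ≤ b * D := Nat.mul_le_mul_right _ (by omega)
        omega
      · rw [Sb, mem_image]
        refine ⟨(a, b), ?_, ?_⟩
        · rw [mem_product, mem_Icc, mem_Icc]
          exact ⟨⟨ha1, by omega⟩, ⟨by omega, hbN⟩⟩
        · rw [e1, e2]
    · left
      rw [mem_biUnion]
      refine ⟨D, mem_Icc.2 ⟨hD0, h4⟩, ?_⟩
      rw [Sa, mem_image]
      refine ⟨(a, b), ?_, ?_⟩
      · obtain ⟨n0, u0, i1, i2, i3⟩ := keller_crit h3 (by omega) hco hc hJ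
          (hd1.trans e1) (hd2.trans e2)
        refine mem_S h3 hlt hbN (i3.mono ?_ ?_)
        · have : (n0 : ℤ) ≤ D := by linarith
          exact_mod_cast this
        · have h5 : (1 : ℤ) ≤ D := by exact_mod_cast hD0
          have : (u0 : ℤ) ≤ D * D := by nlinarith
          exact_mod_cast this
      · rw [e1, e2]

end Pool.Agent.Helper1.TZ
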